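import Mathlib

/-!
# The inverse of an expanding integer matrix is eventually contracting
-/

set_option autoImplicit false
open Matrix
open scoped Matrix.Norms.Operator NNReal ENNReal

namespace Pool.Agent.N835.Spec

/-- In a complex Banach algebra, spectral radius `< 1` forces the powers to tend to `0`. -/
theorem norm_pow_tendsto_zero {A : Type*} [NormedRing A] [NormedAlgebra ℂ A] [CompleteSpace A]
    (a : A) (h : spectralRadius ℂ a < 1) : Filter.Tendsto (fun n : ℕ => ‖a ^ n‖) Filter.atTop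
      (nhds 0) := by
  have h1 := spectrum.pow_nnnorm_pow_one_div_tendsto_nhds_spectralRadius a
  obtain ⟨r, hr1, hr2⟩ := ENNReal.lt_iff_exists_nnreal_btwn.1 h
  have hr2' : r < 1 := by exact_mod_cast hr2
  have h2 : ∀ᶠ n : ℕ in Filter.atTop, ((‖a ^ n‖₊ : ℝ≥0∞) ^ (1 / n : ℝ)) < r :=
    h1.eventually_lt_const hr1
  have h3 : ∀ᶠ n : ℕ in Filter.atTop, ‖a ^ n‖ ≤ (r : ℝ) ^ n := by
    filter_upwards [h2, Filter.eventually_gt_atTop 0] with n hn hn0
    have hn0' : (0 : ℝ) < n := by exact_mod_cast hn0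
    have h4 : (‖a ^ n‖₊ : ℝ≥0∞) ≤ (r : ℝ≥0∞) ^ (n : ℝ) := by
      have h5 := ENNReal.rpow_le_rpow hn.le hn0'.le
      rwa [← ENNReal.rpow_mul, one_div, inv_mul_cancel₀ hn0'.ne', ENNReal.rpow_one] at h5
    rw [ENNReal.rpow_natCast] at h4
    have h6 : ‖a ^ n‖₊ ≤ r ^ n := by exact_mod_cast h4
    exact_mod_cast h6
  have h7 : Filter.Tendsto (fun n : ℕ => (r : ℝ) ^ n) Filter.atTop (nhds 0) :=
    tendsto_pow_atTop_nhds_zero_of_lt_one r.2 (by exact_mod_cast hr2')
  exact squeeze_zero' (Filter.Eventually.of_forall fun _ => norm_nonneg _) h3 h7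

variable {d : ℕ}

theorem det_ne_zero_of_expanding (R : Matrix (Fin d) (Fin d) ℤ)
    (h : ∀ z : ℂ, (R.map (Int.castRingHom ℂ)).charpoly.IsRoot z → 1 < ‖z‖) : R.det ≠ 0 := by
  intro h0
  have h1 : (R.map (Int.castRingHom ℂ)).charpoly.IsRoot 0 := by
    have h2 : (R.map (Int.castRingHom ℂ)).det = 0 := by
      have := (Int.castRingHom ℂ).map_det R
      rw [h0, map_zero] at this
      rw [RingHom.mapMatrix_apply] at this
      exact this.symm
    rw [Matrix.det_eq_sign_charpoly_coeff] at h2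
    have h3 : (R.map (Int.castRingHom ℂ)).charpoly.coeff 0 = 0 := by
      rcases mul_eq_zero.1 h2 with h4 | h4
      · exact absurd h4 (pow_ne_zero _ (by norm_num))
      · exact h4
    rw [Polynomial.IsRoot, ← Polynomial.coeff_zero_eq_eval_zero]
    exact h3
  have := h 0 h1
  simp at this
  linarith

theorem pow_inv_small [Nonempty (Fin d)] (R : Matrix (Fin d) (Fin d) ℤ)
    (h : ∀ z : ℂ, (R.map (Int.castRingHom ℂ)).charpoly.IsRoot z → 1 < ‖z‖) (ε : ℝ) (hε : 0 < ε) :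
    ∃ n0 : ℕ, ∀ n ≥ n0, ∀ x : Fin d → ℝ,
      ‖(((R.map (Int.castRingHom ℝ))⁻¹) ^ n) *ᵥ x‖ ≤ ε * ‖x‖ := by
  classical
  set MR : Matrix (Fin d) (Fin d) ℝ := (R.map (Int.castRingHom ℝ))⁻¹ with hMR
  set RC : Matrix (Fin d) (Fin d) ℂ := R.map (Int.castRingHom ℂ) with hRC
  set MC : Matrix (Fin d) (Fin d) ℂ := MR.map (algebraMap ℝ ℂ) with hMC
  have hdet := det_ne_zero_of_expanding R h
  have hdetR : IsUnit (R.map (Int.castRingHom ℝ)).det := by
    rw [isUnit_iff_ne_zero]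
    have := (Int.castRingHom ℝ).map_det R
    rw [RingHom.mapMatrix_apply] at this
    rw [← this]
    simpa using hdet
  have hprod : MC * RC = 1 := by
    have h1 : MR * (R.map (Int.castRingHom ℝ)) = 1 := Matrix.nonsing_inv_mul _ hdetR
    have h2 : RC = (R.map (Int.castRingHom ℝ)).map (algebraMap ℝ ℂ) := by
      ext i j
      simp [hRC]
    rw [h2, hMC, ← Matrix.map_mul, h1]
    simp
  have hprod' : RC * MC = 1 := mul_eq_one_comm.1 hprod
  set u : (Matrix (Fin d) (Fin d) ℂ)ˣ := ⟨RC, MC, hprod', hprod⟩ with hu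
  have hspec : ∀ z ∈ spectrum ℂ MC, ‖z‖ < 1 := by
    intro z hz
    have h1 : z⁻¹ ∈ spectrum ℂ RC := by
      have h2 : z ∈ spectrum ℂ ((u⁻¹ : (Matrix (Fin d) (Fin d) ℂ)ˣ) : Matrix (Fin d) (Fin d) ℂ) := hz
      have h3 := spectrum.inv₀_mem_inv_iff (r := z⁻¹) (a := u)
      rw [inv_inv] at h3
      exact h3.1 h2
    have h2 := h _ (Matrix.mem_spectrum_iff_isRoot_charpoly.1 h1)
    rw [norm_inv] at h2
    have hz0 : z ≠ 0 := by
      rintro rfl
      simp at h2
      linarith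
    exact (one_lt_inv₀ (norm_pos_iff.2 hz0)).1 h2
  have hrad : spectralRadius ℂ MC < 1 := by
    obtain ⟨z, hz, hz1⟩ := spectrum.exists_nnnorm_eq_spectralRadius_of_nonempty
      (spectrum.nonempty_of_isAlgClosed_of_finiteDimensional ℂ MC)
    rw [← hz1]
    have := hspec z hz
    exact_mod_cast this
  have hlim := norm_pow_tendsto_zero MC hrad
  obtain ⟨n0, hn0⟩ := (Filter.eventually_atTop.1 (hlim.eventually_lt_const hε))
  refine ⟨n0, fun n hn x => ?_⟩
  have h1 := hn0 n hn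
  have h2 : ‖MR ^ n‖ = ‖MC ^ n‖ := by
    have h3 : MC ^ n = (MR ^ n).map (algebraMap ℝ ℂ) := by
      rw [hMC]
      have := (map_pow ((algebraMap ℝ ℂ).mapMatrix) MR n)
      rw [RingHom.mapMatrix_apply, RingHom.mapMatrix_apply] at this
      exact this.symm
    rw [h3]
    simp only [Matrix.linfty_opNorm_def]
    congr 1
    refine congrArg _ ?_
    funext i
    refine Finset.sum_congr rfl fun j _ => ?_
    ext
    simp
  calc ‖(MR ^ n) *ᵥ x‖ ≤ ‖MR ^ n‖ * ‖x‖ := Matrix.linfty_opNorm_mulVec _ _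
    _ ≤ ε * ‖x‖ := by
      gcongr
      rw [h2]
      exact h1.le

end Pool.Agent.N835.Spec
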