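import Pool.Agent.N835.Spec.Words

/-!
# Bounded multiplicity of the pieces implies measure disjointness
-/

set_option autoImplicit false
set_option linter.unusedSectionVars false
open MeasureTheory
open scoped ENNReal

namespace Pool.Agent.N835.Spec

variable {d : ℕ} {J : Type*} [Fintype J] [DecidableEq J]
  (M : (Fin d → ℝ) →ₗ[ℝ] (Fin d → ℝ)) (β : J → Fin d → ℝ)

/-- Subadditivity with one overlap taken into account. -/
theorem measure_iUnion_add_inter_le {E : Type*} [MeasurableSpace E] (μ : Measure E)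
    (A : J → Set E) (hA : ∀ j, MeasurableSet (A j)) (j1 j2 : J) (h : j1 ≠ j2) :
    μ (⋃ j, A j) + μ (A j1 ∩ A j2) ≤ ∑ j, μ (A j) := by
  have h1 : ∑ j, μ (A j) = μ (A j1) + ∑ j ∈ Finset.univ.erase j1, μ (A j) :=
    (Finset.add_sum_erase _ _ (Finset.mem_univ j1)).symm
  set U : Set E := ⋃ j ∈ Finset.univ.erase j1, A j with hU
  have hUm : MeasurableSet U := Finset.measurableSet_biUnion _ fun j _ => hA j
  have h2 : μ U ≤ ∑ j ∈ Finset.univ.erase j1, μ (A j) := measure_biUnion_finset_le _ _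
  have h3 : (⋃ j, A j) ⊆ A j1 ∪ U := by
    intro x hx
    obtain ⟨j, hj⟩ := Set.mem_iUnion.1 hx
    by_cases hj1 : j = j1
    · left; rw [← hj1]; exact hj
    · right
      exact Set.mem_biUnion (by simp [hj1]) hj
  have h4 : A j1 ∩ A j2 ⊆ A j1 ∩ U := by
    intro x hx
    refine ⟨hx.1, Set.mem_biUnion (x := j2) (by simp [h.symm]) hx.2⟩
  rw [h1]
  calc μ (⋃ j, A j) + μ (A j1 ∩ A j2) ≤ μ (A j1 ∪ U) + μ (A j1 ∩ U) := by gcongr
    _ = μ (A j1) + μ U := measure_union_add_inter _ hUm
    _ ≤ _ := by gcongr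

section both

variable (μ : Measure (Fin d → ℝ)) [IsProbabilityMeasure μ]
  (hinv : ∀ s, MeasurableSet s →
    (Fintype.card J : ℝ≥0∞) * μ s = ∑ j, μ ((fun x => M (x + β j)) ⁻¹' s))
  (T : Set (Fin d → ℝ)) (hT : T = ⋃ j, (fun x => M (x + β j)) '' T)
  (hTc : IsCompact T)

include hT hTc

theorem sum_psi_le (C : ℕ) (n : ℕ)
    (hC : ∀ y, {w : Fin n → J | y ∈ psi M β n w '' T}.ncard ≤ C) :
    ∑ w : Fin n → J, μ (psi M β n w '' T) ≤ C := by
  classical
  have hm : ∀ w : Fin n → J, MeasurableSet (psi M β n w '' T) := fun w =>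
    (hTc.image (psi_continuous M β n w)).isClosed.measurableSet
  have h1 : ∀ w : Fin n → J, μ (psi M β n w '' T)
      = ∫⁻ x, (psi M β n w '' T).indicator 1 x ∂μ := fun w => (lintegral_indicator_one (hm w)).symm
  simp_rw [h1]
  rw [← lintegral_finsetSum _ fun w _ => measurable_one.indicator (hm w)]
  have h2 : ∀ x, ∑ w : Fin n → J, (psi M β n w '' T).indicator (1 : (Fin d → ℝ) → ℝ≥0∞) x ≤ C := by
    intro x
    have h3 : ∑ w : Fin n → J, (psi M β n w '' T).indicator (1 : (Fin d → ℝ) → ℝ≥0∞) x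
        = ((Finset.univ.filter fun w : Fin n → J => x ∈ psi M β n w '' T).card : ℝ≥0∞) := by
      rw [Finset.card_filter]
      push_cast
      refine Finset.sum_congr rfl fun w _ => ?_
      by_cases hx : x ∈ psi M β n w '' T <;> simp only [Set.indicator, hx, if_true, if_false,
        Pi.one_apply]
    rw [h3]
    have h4 := hC x
    rw [Set.ncard_eq_toFinset_card'] at h4
    have h5 : (Finset.univ.filter fun w : Fin n → J => x ∈ psi M β n w '' T)
        = {w : Fin n → J | x ∈ psi M β n w '' T}.toFinset := by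
      ext w; simp
    rw [h5]
    exact_mod_cast h4
  calc ∫⁻ x, ∑ w : Fin n → J, (psi M β n w '' T).indicator (1 : (Fin d → ℝ) → ℝ≥0∞) x ∂μ
      ≤ ∫⁻ _x, (C : ℝ≥0∞) ∂μ := lintegral_mono h2
    _ = C := by simp

include hinv

theorem sum_psi_succ (hMinj : Function.Injective M) (n : ℕ) (j1 j2 : J) (h : j1 ≠ j2) :
    ∑ w : Fin n → J, μ (psi M β n w '' T) +
      μ ((fun x => M (x + β j1)) '' T ∩ (fun x => M (x + β j2)) '' T) ≤
      ∑ w : Fin (n + 1) → J, μ (psi M β (n + 1) w '' T) := by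
  have hcard : (Fintype.card J : ℝ≥0∞) ≠ 0 := by
    have : Nonempty J := ⟨j1⟩
    exact_mod_cast Fintype.card_ne_zero
  have hcardt : (Fintype.card J : ℝ≥0∞) ≠ ⊤ := ENNReal.natCast_ne_top _
  have hphi : ∀ j, Continuous fun x : Fin d → ℝ => M (x + β j) := fun j =>
    (LinearMap.continuous_of_finiteDimensional M).comp (continuous_id.add continuous_const)
  set D : Set (Fin d → ℝ) := (fun x => M (x + β j1)) '' T ∩ (fun x => M (x + β j2)) '' T with hD
  have hDc : IsCompact D := (hTc.image (hphi j1)).inter_right (hTc.image (hphi j2)).isClosed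
  have hinj : ∀ w : Fin n → J, Function.Injective (psi M β n w) := by
    intro w x y hxy
    have h1 := psi_sub M β n w x y
    rw [hxy, sub_self] at h1
    have h2 : Function.Injective (M ^ n : (Fin d → ℝ) →ₗ[ℝ] (Fin d → ℝ)) := by
      rw [Module.End.coe_pow]
      exact hMinj.iterate n
    have h3 : x - y = 0 := h2 (by rw [← h1, map_zero])
    exact sub_eq_zero.1 h3
  -- each word
  have hword : ∀ w : Fin n → J, μ (psi M β n w '' T) + μ (psi M β n w '' D) ≤
      ∑ j : J, μ (psi M β (n + 1) (Fin.snoc w j : Fin (n + 1) → J) '' T) := by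
    intro w
    have h1 : ∀ j, psi M β (n + 1) (Fin.snoc w j : Fin (n + 1) → J) '' T
        = psi M β n w '' ((fun x => M (x + β j)) '' T) := by
      intro j
      rw [Set.image_image]
      refine Set.image_congr fun x _ => ?_
      rw [psi_snoc]
    simp_rw [h1]
    have h2 : psi M β n w '' T = ⋃ j, psi M β n w '' ((fun x => M (x + β j)) '' T) := by
      conv_lhs => rw [hT]
      rw [Set.image_iUnion]
    have h3 : psi M β n w '' D = psi M β n w '' ((fun x => M (x + β j1)) '' T) ∩
        psi M β n w '' ((fun x => M (x + β j2)) '' T) := by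
      rw [hD, Set.image_inter (hinj w)]
    rw [h2, h3]
    refine measure_iUnion_add_inter_le μ _ (fun j => ?_) j1 j2 h
    exact ((hTc.image (hphi j)).image (psi_continuous M β n w)).isClosed.measurableSet
  rw [sum_snoc]
  have hsum : ∑ w : Fin n → J, μ (psi M β n w '' T) + ∑ w : Fin n → J, μ (psi M β n w '' D) ≤
      ∑ w : Fin n → J, ∑ j : J, μ (psi M β (n + 1) (Fin.snoc w j : Fin (n + 1) → J) '' T) := by
    rw [← Finset.sum_add_distrib]
    exact Finset.sum_le_sum fun w _ => hword w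
  refine le_trans ?_ hsum
  gcongr
  have h5 : (Fintype.card J : ℝ≥0∞) ^ n * μ D ≤
      (Fintype.card J : ℝ≥0∞) ^ n * ∑ w : Fin n → J, μ (psi M β n w '' D) := by
    calc (Fintype.card J : ℝ≥0∞) ^ n * μ D = ∑ _w : Fin n → J, μ D := by simp
      _ ≤ ∑ w : Fin n → J, (Fintype.card J : ℝ≥0∞) ^ n * μ (psi M β n w '' D) := by
          refine Finset.sum_le_sum fun w _ => ?_
          refine le_trans ?_ (le_measure_of_word M β μ hinv n w (psi M β n w '' D)
            (hDc.image (psi_continuous M β n w)).isClosed.measurableSet)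
          exact measure_mono (Set.subset_preimage_image _ _)
      _ = _ := by rw [Finset.mul_sum]
  exact (ENNReal.mul_le_mul_iff_right (pow_ne_zero _ hcard) (ENNReal.pow_ne_top hcardt)).1 h5

theorem no_overlap_of_bounded (hMinj : Function.Injective M) (C : ℕ)
    (hC : ∀ n y, {w : Fin n → J | y ∈ psi M β n w '' T}.ncard ≤ C) (j1 j2 : J) (h : j1 ≠ j2) :
    μ ((fun x => M (x + β j1)) '' T ∩ (fun x => M (x + β j2)) '' T) = 0 := by
  set D : Set (Fin d → ℝ) := (fun x => M (x + β j1)) '' T ∩ (fun x => M (x + β j2)) '' T with hD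
  have hlow : ∀ n : ℕ, (n : ℝ≥0∞) * μ D ≤ ∑ w : Fin n → J, μ (psi M β n w '' T) := by
    intro n
    induction n with
    | zero => simp
    | succ n ih =>
      refine le_trans ?_ (sum_psi_succ M β μ hinv T hT hTc hMinj n j1 j2 h)
      push_cast
      rw [add_mul, one_mul]
      gcongr
  have hup : ∀ n : ℕ, (n : ℝ≥0∞) * μ D ≤ C := fun n =>
    (hlow n).trans (sum_psi_le M β μ T hT hTc C n (hC n))
  by_contra h0
  have hpos : 0 < (μ D).toReal := ENNReal.toReal_pos h0 (measure_ne_top _ _)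
  obtain ⟨n, hn⟩ := exists_nat_gt ((C : ℝ) / (μ D).toReal)
  have h1 := hup n
  have h2 : (n : ℝ) * (μ D).toReal ≤ C := by
    have h3 := ENNReal.toReal_mono (ENNReal.natCast_ne_top C) h1
    rw [ENNReal.toReal_mul] at h3
    simpa using h3
  rw [div_lt_iff₀ hpos] at hn
  linarith

end both

end Pool.Agent.N835.Spec
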