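import Pool.Agent.N835.Spec.Count

/-!
# Spectral self-affine measures have no overlap
-/

set_option autoImplicit false
set_option linter.unusedSectionVars false
open MeasureTheory Matrix
open scoped ENNReal

namespace Pool.Agent.N835.Spec

/-- There are reals with no nontrivial integer relation. -/
theorem exists_generic (d : ℕ) : ∃ u : Fin d → ℝ, ∀ v : Fin d → ℤ,
    ∑ i, u i * (v i : ℝ) = 0 → v = 0 := by
  set θ : ℝ := liouvilleNumber (2 : ℕ) with hθ
  have hθt : Transcendental ℤ θ := transcendental_liouvilleNumber le_rfl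
  refine ⟨fun i => θ ^ (i : ℕ), fun v hv => ?_⟩
  set P : Polynomial ℤ := ∑ i : Fin d, Polynomial.monomial (i : ℕ) (v i) with hP
  have h1 : Polynomial.aeval θ P = 0 := by
    rw [hP, map_sum, ← hv]
    refine Finset.sum_congr rfl fun i _ => ?_
    rw [Polynomial.aeval_monomial]
    simp [mul_comm]
  have h2 : P = 0 := by
    by_contra hne
    exact hθt ⟨P, hne, h1⟩
  funext i
  have h3 : P.coeff (i : ℕ) = v i := by
    rw [hP, Polynomial.finsetSum_coeff, Finset.sum_eq_single i]
    · simp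
    · intro j _ hj
      rw [Polynomial.coeff_monomial, if_neg]
      intro h
      exact hj (Fin.ext h)
    · simp
  rw [h2] at h3
  simpa using h3.symm

/-- The real vector of an integer vector. -/
def cz {d : ℕ} (v : Fin d → ℤ) : Fin d → ℝ := fun i => (v i : ℝ)

theorem cz_injective {d : ℕ} : Function.Injective (cz : (Fin d → ℤ) → (Fin d → ℝ)) := by
  intro v w h
  funext i
  have := congrFun h i
  simpa [cz] using this

theorem cz_sub {d : ℕ} (v w : Fin d → ℤ) : cz (v - w) = cz v - cz w := by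
  funext i; simp [cz]

theorem cz_sum {d : ℕ} {κ : Type*} (s : Finset κ) (f : κ → Fin d → ℤ) :
    cz (∑ k ∈ s, f k) = ∑ k ∈ s, cz (f k) := by
  funext i; simp [cz]

theorem exists_extreme {J : Type*} [Fintype J] [Nonempty J] (n : ℕ) (g : Fin n → J → ℝ)
    (hg : ∀ i, Function.Injective (g i)) :
    ∃ w0 : Fin n → J, ∀ w, w ≠ w0 → ∑ i, g i (w i) < ∑ i, g i (w0 i) := by
  have h1 : ∀ i, ∃ j, ∀ j', g i j' ≤ g i j := fun i => Finite.exists_max (g i)
  choose w0 hw0 using h1
  refine ⟨w0, fun w hw => ?_⟩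
  obtain ⟨i, hi⟩ := Function.ne_iff.1 hw
  refine Finset.sum_lt_sum (fun i _ => hw0 i (w i)) ⟨i, Finset.mem_univ i, ?_⟩
  refine lt_of_le_of_ne (hw0 i (w i)) fun h => hi (hg i h)

section main

variable {d : ℕ} [Nonempty (Fin d)] (R : Matrix (Fin d) (Fin d) ℤ) (B : Finset (Fin d → ℤ))

/-- the linear map of the matrix -/
noncomputable def RL : (Fin d → ℝ) →ₗ[ℝ] (Fin d → ℝ) :=
  Matrix.mulVecLin (R.map (Int.castRingHom ℝ))

/-- the inverse linear map -/
noncomputable def ML : (Fin d → ℝ) →ₗ[ℝ] (Fin d → ℝ) :=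
  Matrix.mulVecLin (R.map (Int.castRingHom ℝ))⁻¹

theorem RL_cz (v : Fin d → ℤ) : RL R (cz v) = cz (R *ᵥ v) := by
  funext i
  simp [RL, cz, Matrix.mulVec, dotProduct]

theorem RL_pow_cz (k : ℕ) (v : Fin d → ℤ) : (RL R ^ k) (cz v) = cz ((R ^ k) *ᵥ v) := by
  induction k with
  | zero => simp
  | succ k ih =>
    rw [pow_succ', Module.End.mul_apply, ih, RL_cz, pow_succ', Matrix.mulVec_mulVec]

variable (h : R.det ≠ 0)

include h

theorem isUnit_det_map : IsUnit (R.map (Int.castRingHom ℝ)).det := by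
  rw [isUnit_iff_ne_zero]
  have := (Int.castRingHom ℝ).map_det R
  rw [RingHom.mapMatrix_apply] at this
  rw [← this]
  simpa using h

theorem RL_ML (x : Fin d → ℝ) : RL R (ML R x) = x := by
  rw [RL, ML, Matrix.mulVecLin_apply, Matrix.mulVecLin_apply, Matrix.mulVec_mulVec,
    Matrix.mul_nonsing_inv _ (isUnit_det_map R h), Matrix.one_mulVec]

theorem ML_RL (x : Fin d → ℝ) : ML R (RL R x) = x := by
  rw [RL, ML, Matrix.mulVecLin_apply, Matrix.mulVecLin_apply, Matrix.mulVec_mulVec,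
    Matrix.nonsing_inv_mul _ (isUnit_det_map R h), Matrix.one_mulVec]

theorem RL_pow_ML_pow (n : ℕ) (x : Fin d → ℝ) : (RL R ^ n) ((ML R ^ n) x) = x := by
  induction n generalizing x with
  | zero => simp
  | succ n ih =>
    rw [pow_succ, Module.End.mul_apply, pow_succ', Module.End.mul_apply, RL_ML R h, ih]

theorem RL_pow_ML_pow_le (n k : ℕ) (hk : k ≤ n) (x : Fin d → ℝ) :
    (RL R ^ n) ((ML R ^ k) x) = (RL R ^ (n - k)) x := by
  obtain ⟨m, rfl⟩ := Nat.exists_eq_add_of_le hk
  rw [Nat.add_sub_cancel_left, add_comm, pow_add, Module.End.mul_apply, RL_pow_ML_pow R h]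

theorem RL_pow_injective (n : ℕ) : Function.Injective (RL R ^ n : (Fin d → ℝ) →ₗ[ℝ] _) := by
  rw [Module.End.coe_pow]
  refine Function.Injective.iterate ?_ n
  intro x y hxy
  rw [← ML_RL R h x, ← ML_RL R h y, hxy]

/-- the integer vector of a word -/
def sw (n : ℕ) (w : Fin n → B) : Fin d → ℤ :=
  ∑ i : Fin n, (R ^ (n - ((i : ℕ) + 1))) *ᵥ (w i : Fin d → ℤ)

theorem RL_pow_tw (n : ℕ) (w : Fin n → B) :
    (RL R ^ n) (tw (ML R) (fun j : B => cz (j : Fin d → ℤ)) n w) = cz (sw R B n w) := by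
  unfold tw sw
  rw [map_sum, cz_sum]
  refine Finset.sum_congr rfl fun i _ => ?_
  rw [RL_pow_ML_pow_le R h n _ (by omega), RL_pow_cz]

theorem mulVec_pow_injective (k : ℕ) : Function.Injective fun v : Fin d → ℤ => (R ^ k) *ᵥ v := by
  intro v w hvw
  have h1 := RL_pow_cz R k v
  have h2 := RL_pow_cz R k w
  have h3 : (RL R ^ k) (cz v) = (RL R ^ k) (cz w) := by
    rw [h1, h2]
    exact congrArg cz hvw
  exact cz_injective (RL_pow_injective R h k h3)

end main

theorem main (d : ℕ) (R : Matrix (Fin d) (Fin d) ℤ) (B : Finset (Fin d → ℤ))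
    (φ : (Fin d → ℤ) → (Fin d → ℝ) → (Fin d → ℝ))
    (μ : MeasureTheory.Measure (Fin d → ℝ))
    (hR : ∀ z : ℂ, (R.map (Int.castRingHom ℂ)).charpoly.IsRoot z → 1 < ‖z‖)
    (hφ : ∀ b x, φ b x = (R.map (Int.castRingHom ℝ))⁻¹ *ᵥ (x + fun i => (b i : ℝ)))
    (hprob : MeasureTheory.IsProbabilityMeasure μ)
    (hμ : μ = ∑ b ∈ B, ((B.card : ENNReal)⁻¹) • μ.map (φ b))
    (hspec : ∃ (Λ : Set (Fin d → ℝ)) (e : Λ → MeasureTheory.Lp ℂ 2 μ),
      (∀ l : Λ, (e l : (Fin d → ℝ) → ℂ) =ᵐ[μ]
        fun x => Complex.exp (2 * Real.pi * Complex.I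
          * ((∑ i, (l : Fin d → ℝ) i * x i : ℝ) : ℂ))) ∧
      Orthonormal ℂ e ∧
      (Submodule.span ℂ (Set.range e)).topologicalClosure = ⊤)
    (T : Set (Fin d → ℝ)) (hTc : IsCompact T) (hTn : T.Nonempty) (hT : T = ⋃ b ∈ B, φ b '' T)
    (b : Fin d → ℤ) (hb : b ∈ B) (b' : Fin d → ℤ) (hb' : b' ∈ B) (hbb : b ≠ b') :
    μ (φ b '' T ∩ φ b' '' T) = 0 := by
  classical
  have hne : Nonempty (Fin d) := by
    by_contra hempty
    rw [not_nonempty_iff] at hempty
    exact hbb (Subsingleton.elim _ _)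
  have hdet := det_ne_zero_of_expanding R hR
  set M := ML R with hM
  set β : B → Fin d → ℝ := fun j => cz (j : Fin d → ℤ) with hβ
  have hφM : ∀ j : B, φ (j : Fin d → ℤ) = fun x => M (x + β j) := by
    intro j
    funext x
    rw [hφ]
    rfl
  have hJ : Nonempty B := ⟨⟨b, hb⟩⟩
  have hcardJ : Fintype.card B = B.card := Fintype.card_coe B
  have hc0 : (Fintype.card B : ℝ≥0∞) ≠ 0 := by
    exact_mod_cast Fintype.card_ne_zero
  have hct : (Fintype.card B : ℝ≥0∞) ≠ ⊤ := ENNReal.natCast_ne_top _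
  have hφm : ∀ j : B, Measurable (φ (j : Fin d → ℤ)) := by
    intro j
    rw [hφM j]
    exact (LinearMap.continuous_of_finiteDimensional M).measurable.comp (measurable_id.add_const _)
  have hinv : ∀ s, MeasurableSet s →
      (Fintype.card B : ℝ≥0∞) * μ s = ∑ j : B, μ ((fun x => M (x + β j)) ⁻¹' s) := by
    intro s hs
    conv_lhs => rw [hμ]
    rw [Measure.finsetSum_apply, Finset.mul_sum, ← Finset.sum_coe_sort B]
    refine Finset.sum_congr rfl fun j _ => ?_
    rw [Measure.smul_apply, Measure.map_apply (hφm j) hs, smul_eq_mul, ← mul_assoc, hcardJ,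
      ENNReal.mul_inv_cancel (by rw [← hcardJ]; exact hc0) (by rw [← hcardJ]; exact hct), one_mul,
      hφM j]
  have hT' : T = ⋃ j : B, (fun x => M (x + β j)) '' T := by
    conv_lhs => rw [hT]
    ext x
    simp only [Set.mem_iUnion]
    constructor
    · rintro ⟨c, hc, hx⟩
      refine ⟨⟨c, hc⟩, ?_⟩
      rw [← hφM ⟨c, hc⟩]
      exact hx
    · rintro ⟨c, hx⟩
      refine ⟨c, c.2, ?_⟩
      rw [hφM c]
      exact hx
  have hcontr : ∀ ε : ℝ, 0 < ε → ∃ n0 : ℕ, ∀ n ≥ n0, ∀ x : Fin d → ℝ,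
      ‖(M ^ n) x‖ ≤ ε * ‖x‖ := by
    intro ε hε
    obtain ⟨n0, hn0⟩ := pow_inv_small R hR ε hε
    refine ⟨n0, fun n hn x => ?_⟩
    have h1 : (M ^ n) x = (((R.map (Int.castRingHom ℝ))⁻¹) ^ n) *ᵥ x := by
      rw [hM, ML]
      clear hn
      induction n generalizing x with
      | zero => simp
      | succ n ih =>
        rw [pow_succ, Module.End.mul_apply, ih, pow_succ, Matrix.mulVecLin_apply,
          Matrix.mulVec_mulVec]
    rw [h1]
    exact hn0 n hn x
  have hTcompl := measure_compl_T M β μ hinv T hT' hTc hTn hcontr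
  obtain ⟨u, hu⟩ := exists_generic d
  -- the functional
  set ℓ : (Fin d → ℝ) → ℝ := fun x => ∑ i, u i * x i with hℓ
  have hℓadd : ∀ x y, ℓ (x + y) = ℓ x + ℓ y := by
    intro x y
    simp only [hℓ, Pi.add_apply, mul_add, Finset.sum_add_distrib]
  have hℓsum : ∀ (n : ℕ) (f : Fin n → Fin d → ℝ), ℓ (∑ i, f i) = ∑ i, ℓ (f i) := by
    intro n f
    simp only [hℓ, Finset.sum_apply, Finset.mul_sum]
    rw [Finset.sum_comm]
  have hℓc : Continuous ℓ := by
    simp only [hℓ]
    fun_prop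
  have hℓz : Function.Injective fun v : Fin d → ℤ => ℓ (cz v) := by
    intro v w hvw
    have h1 : ∑ i, u i * ((v - w) i : ℝ) = 0 := by
      have h2 : ∑ i, u i * ((v - w) i : ℝ) = ℓ (cz v) - ℓ (cz w) := by
        simp only [hℓ, cz, ← Finset.sum_sub_distrib, ← mul_sub]
        refine Finset.sum_congr rfl fun i _ => ?_
        push_cast [Pi.sub_apply]
        ring
      rw [h2, sub_eq_zero]
      exact hvw
    have h3 := hu (v - w) (by exact_mod_cast h1)
    exact sub_eq_zero.1 h3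
  -- injectivity of the translations
  have hinj : ∀ n : ℕ, Function.Injective (tw M β n) := by
    intro n
    set g : Fin n → B → ℝ := fun i j =>
      ℓ (cz ((R ^ (n - ((i : ℕ) + 1))) *ᵥ (j : Fin d → ℤ))) with hg
    have hginj : ∀ i, Function.Injective (g i) := by
      intro i j j' hjj
      have h1 := hℓz hjj
      exact Subtype.ext (mulVec_pow_injective R hdet _ h1)
    obtain ⟨w0, hw0⟩ := exists_extreme n g hginj
    have htw : ∀ w : Fin n → B, ℓ ((RL R ^ n) (tw M β n w)) = ∑ i, g i (w i) := by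
      intro w
      rw [RL_pow_tw R B hdet, sw, cz_sum, hℓsum]
    obtain ⟨y0, hy0, hy0max⟩ := hTc.exists_isMaxOn hTn hℓc.continuousOn
    have hpsi : ∀ (w : Fin n → B) (x : Fin d → ℝ),
        ℓ ((RL R ^ n) (psi M β n w x)) = ℓ x + ∑ i, g i (w i) := by
      intro w x
      rw [psi, map_add, RL_pow_ML_pow R hdet, hℓadd, htw]
    set O : Set (Fin d → ℝ) := ⋂ w ∈ (Finset.univ.erase w0 : Finset (Fin n → B)),
      {z | ℓ y0 + ∑ i, g i (w i) < ℓ ((RL R ^ n) z)} with hO
    have hOopen : IsOpen O := by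
      refine isOpen_biInter_finset fun w _ => ?_
      exact isOpen_lt continuous_const (hℓc.comp (LinearMap.continuous_of_finiteDimensional _))
    have hmemO : psi M β n w0 y0 ∈ O := by
      simp only [hO, Set.mem_iInter]
      intro w hw
      rw [Set.mem_ofPred_eq, hpsi]
      have := hw0 w (Finset.ne_of_mem_erase hw)
      linarith
    have hOne := measure_open_ne_zero M β μ hinv T hT' hTc hTn hcontr O hOopen _ hmemO
      (psi_mem M β T hT' n w0 y0 hy0)
    refine injective_of_spectral μ (M ^ n) (tw M β n) ?_ hspec T hTcompl w0 O hOopen.measurableSet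
      hOne ?_
    · have hpm : ∀ w : Fin n → B, Measurable (fun x => (M ^ n) x + tw M β n w) := fun w =>
        (psi_continuous M β n w).measurable
      ext s hs
      rw [Measure.finsetSum_apply]
      have hcard : ((Fintype.card (Fin n → B) : ℕ) : ℝ≥0∞) = (Fintype.card B : ℝ≥0∞) ^ n := by
        rw [Fintype.card_fun, Fintype.card_fin]
        push_cast
        rfl
      have hcn0 : (Fintype.card B : ℝ≥0∞) ^ n ≠ 0 := pow_ne_zero _ hc0
      have hcnt : (Fintype.card B : ℝ≥0∞) ^ n ≠ ⊤ := ENNReal.pow_ne_top hct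
      have h1 := inv_iter M β μ hinv n s hs
      have h2 : ∀ w ∈ (Finset.univ : Finset (Fin n → B)),
          (((Fintype.card (Fin n → B) : ℕ) : ℝ≥0∞)⁻¹ •
            Measure.map (fun x => (M ^ n) x + tw M β n w) μ) s
          = ((Fintype.card B : ℝ≥0∞) ^ n)⁻¹ * μ (psi M β n w ⁻¹' s) := by
        intro w _
        rw [Measure.smul_apply, Measure.map_apply (hpm w) hs, smul_eq_mul, hcard]
        rfl
      rw [Finset.sum_congr rfl h2, ← Finset.mul_sum, ← h1, ← mul_assoc,
        ENNReal.inv_mul_cancel hcn0 hcnt, one_mul]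
    · intro w hw x hx hxO
      simp only [hO, Set.mem_iInter] at hxO
      have h1 := hxO w (Finset.mem_erase.2 ⟨hw, Finset.mem_univ w⟩)
      rw [Set.mem_ofPred_eq] at h1
      have h2 := hpsi w x
      rw [psi] at h2
      rw [h2] at h1
      have h3 : ℓ x ≤ ℓ y0 := hy0max hx
      linarith
  -- bounded multiplicity
  obtain ⟨D, hD⟩ := hTc.isBounded.exists_norm_le
  set K : ℤ := ⌈2 * D⌉ with hK
  set V : Set (Fin d → ℤ) := {v | ∃ x ∈ T, ∃ y ∈ T, cz v = x - y} with hV
  have hVfin : V.Finite := by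
    refine (Set.finite_Icc (fun _ : Fin d => -K) (fun _ => K)).subset ?_
    rintro v ⟨x, hx, y, hy, hxy⟩
    have hb : ∀ i, |(v i : ℝ)| ≤ 2 * D := by
      intro i
      have h1 : (v i : ℝ) = (x - y) i := by rw [← hxy]; rfl
      have h2 : ‖x - y‖ ≤ 2 * D := by
        calc ‖x - y‖ ≤ ‖x‖ + ‖y‖ := norm_sub_le _ _
          _ ≤ 2 * D := by linarith [hD x hx, hD y hy]
      rw [h1, ← Real.norm_eq_abs]
      exact (norm_le_pi_norm _ i).trans h2
    constructor
    · intro i
      have h1 := (abs_le.1 (hb i)).1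
      have h2 : (-(K : ℝ)) ≤ v i := by
        have := Int.le_ceil (2 * D)
        rw [← hK] at this
        linarith
      exact_mod_cast h2
    · intro i
      have h1 := (abs_le.1 (hb i)).2
      have h2 : (v i : ℝ) ≤ K := h1.trans (Int.le_ceil _)
      exact_mod_cast h2
  have hC : ∀ n y, {w : Fin n → B | y ∈ psi M β n w '' T}.ncard ≤ V.ncard := by
    intro n y
    rcases Set.eq_empty_or_nonempty {w : Fin n → B | y ∈ psi M β n w '' T} with he | ⟨w1, hw1⟩
    · rw [he]
      simp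
    · have hRy : ∀ w : Fin n → B, y ∈ psi M β n w '' T →
          ∃ x ∈ T, (RL R ^ n) y = x + cz (sw R B n w) := by
        rintro w ⟨x, hx, rfl⟩
        refine ⟨x, hx, ?_⟩
        rw [psi, map_add, RL_pow_ML_pow R hdet, RL_pow_tw R B hdet]
      refine Set.ncard_le_ncard_of_injOn (fun w => sw R B n w - sw R B n w1) ?_ ?_ hVfin
      · intro w hw
        obtain ⟨x, hx, hxe⟩ := hRy w hw
        obtain ⟨x1, hx1, hxe1⟩ := hRy w1 hw1
        refine ⟨x1, hx1, x, hx, ?_⟩
        rw [cz_sub]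
        have h1 : x + cz (sw R B n w) = x1 + cz (sw R B n w1) := by rw [← hxe, ← hxe1]
        have h2 : cz (sw R B n w) = x1 + cz (sw R B n w1) - x := by
          rw [← h1]; abel
        rw [h2]
        abel
      · intro w _ w' _ hww
        have h1 : sw R B n w = sw R B n w' := by
          have : sw R B n w - sw R B n w1 = sw R B n w' - sw R B n w1 := hww
          exact sub_left_injective this
        apply hinj n
        apply RL_pow_injective R hdet n
        rw [RL_pow_tw R B hdet, RL_pow_tw R B hdet, h1]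
  have hMinj : Function.Injective M := by
    intro x y hxy
    rw [← RL_ML R hdet x, ← RL_ML R hdet y]
    exact congrArg _ hxy
  have hfin := no_overlap_of_bounded M β μ hinv T hT' hTc hMinj V.ncard hC ⟨b, hb⟩ ⟨b', hb'⟩
    (fun hh => hbb (congrArg Subtype.val hh))
  rw [← hφM ⟨b, hb⟩, ← hφM ⟨b', hb'⟩] at hfin
  exact hfin

end Pool.Agent.N835.Spec
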