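import Mathlib

/-!
# Spectral measures: Parseval comparison of two pieces

If a probability measure `μ` is spectral and is the equal weight average of the images
`μ.map (x ↦ A x + t i)`, `i ∈ I`, and some open piece is covered by one single map, then
all translations `t i` are distinct.
-/

set_option autoImplicit false
open MeasureTheory
open scoped ENNReal InnerProductSpace ComplexConjugate

namespace Pool.Agent.N835.Spec

/-- Two vectors whose coefficients against a total orthonormal family have the same moduli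
have the same norm. -/
theorem norm_eq_of_inner {ι H : Type*} [NormedAddCommGroup H] [InnerProductSpace ℂ H]
    [CompleteSpace H] (e : ι → H) (he : Orthonormal ℂ e)
    (ht : (Submodule.span ℂ (Set.range e)).topologicalClosure = ⊤) (x y : H)
    (h : ∀ i, ‖⟪e i, x⟫_ℂ‖ = ‖⟪e i, y⟫_ℂ‖) : ‖x‖ = ‖y‖ := by
  set b : HilbertBasis ι ℂ H := HilbertBasis.mk he (by rw [ht]) with hb
  have hbe : ⇑b = e := HilbertBasis.coe_mk he _
  have key : ∀ z : H, ∀ i, ⟪z, b i⟫_ℂ * ⟪b i, z⟫_ℂ = ((‖⟪e i, z⟫_ℂ‖ ^ 2 : ℝ) : ℂ) := by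
    intro z i
    rw [← inner_conj_symm z (b i), hbe]
    rw [mul_comm, Complex.mul_conj, Complex.normSq_eq_norm_sq]
  have hx := b.hasSum_inner_mul_inner x x
  have hy := b.hasSum_inner_mul_inner y y
  have h1 : ⟪x, x⟫_ℂ = ⟪y, y⟫_ℂ := by
    refine hx.unique ?_
    convert hy using 2 with i
    rw [key, key, h]
  rw [inner_self_eq_norm_sq_to_K, inner_self_eq_norm_sq_to_K] at h1
  have h2 : ‖x‖ ^ 2 = ‖y‖ ^ 2 := by exact_mod_cast h1
  exact (sq_eq_sq₀ (norm_nonneg _) (norm_nonneg _)).1 h2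

/-- A measure dominated by a multiple of `μ` is represented in `L²(μ)`. -/
theorem exists_density {E : Type*} [MeasurableSpace E] (μ σ : Measure E) [IsFiniteMeasure μ]
    (C : ℝ) (hC : 0 ≤ C) (h : ∀ s, MeasurableSet s → σ s ≤ ENNReal.ofReal C * μ s) :
    ∃ F : Lp ℂ 2 μ,
      (∀ (g : E → ℂ) (G : Lp ℂ 2 μ), (G : E → ℂ) =ᵐ[μ] g →
        ⟪G, F⟫_ℂ = ∫ x, conj (g x) ∂σ) ∧ ‖F‖ ^ 2 ≤ C * (σ Set.univ).toReal := by
  have hac : σ ≪ μ := by
    refine Measure.AbsolutelyContinuous.mk fun s hs hs0 => ?_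
    have := h s hs
    rw [hs0, mul_zero] at this
    exact le_antisymm this bot_le
  have hfin : IsFiniteMeasure σ := by
    refine ⟨lt_of_le_of_lt (h _ MeasurableSet.univ) ?_⟩
    exact ENNReal.mul_lt_top ENNReal.ofReal_lt_top (measure_lt_top _ _)
  set r : E → ℝ≥0∞ := σ.rnDeriv μ with hr
  have hrm : Measurable r := Measure.measurable_rnDeriv _ _
  have hle : r ≤ᵐ[μ] fun _ => ENNReal.ofReal C := by
    refine ae_le_of_forall_setLIntegral_le_of_sigmaFinite hrm fun s hs _ => ?_
    have h1 : ∫⁻ x in s, r x ∂μ = σ s := Measure.setLIntegral_rnDeriv hac s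
    rw [h1, setLIntegral_const]
    exact h s hs
  have hreal : ∀ᵐ x ∂μ, (r x).toReal ≤ C ∧ 0 ≤ (r x).toReal := by
    filter_upwards [hle] with x hx
    refine ⟨?_, ENNReal.toReal_nonneg⟩
    exact ENNReal.toReal_le_of_le_ofReal hC hx
  set f : E → ℂ := fun x => (((r x).toReal : ℝ) : ℂ) with hf
  have hfm : Measurable f := Complex.measurable_ofReal.comp hrm.ennreal_toReal
  have hfL : MemLp f 2 μ := by
    refine MemLp.of_bound hfm.aestronglyMeasurable C ?_
    filter_upwards [hreal] with x hx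
    rw [hf]
    simp only [Complex.norm_real, Real.norm_eq_abs, abs_of_nonneg hx.2]
    exact hx.1
  refine ⟨hfL.toLp f, ?_, ?_⟩
  · intro g G hG
    rw [L2.inner_def]
    have h1 : ∫ x, ⟪(G : E → ℂ) x, (hfL.toLp f : E → ℂ) x⟫_ℂ ∂μ
        = ∫ x, (r x).toReal • conj (g x) ∂μ := by
      refine integral_congr_ae ?_
      filter_upwards [hG, hfL.coeFn_toLp] with x hx1 hx2
      rw [hx1, hx2]
      simp only [hf, RCLike.inner_apply, Complex.real_smul]
    rw [h1, integral_rnDeriv_smul hac]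
  · have h0 : ‖hfL.toLp f‖ ^ 2 = ∫ x, (r x).toReal ^ 2 ∂μ := by
      have h2 : (⟪hfL.toLp f, hfL.toLp f⟫_ℂ) = ∫ x, (((r x).toReal ^ 2 : ℝ) : ℂ) ∂μ := by
        rw [L2.inner_def]
        refine integral_congr_ae ?_
        filter_upwards [hfL.coeFn_toLp] with x hx2
        rw [hx2]
        simp only [hf, RCLike.inner_apply, Complex.conj_ofReal]
        push_cast
        ring
      rw [inner_self_eq_norm_sq_to_K, integral_complex_ofReal] at h2
      have h4 : ((‖hfL.toLp f‖ ^ 2 : ℝ) : ℂ) = ((∫ x, (r x).toReal ^ 2 ∂μ : ℝ) : ℂ) := by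
        rw [← h2]; push_cast; rfl
      exact Complex.ofReal_injective h4
    rw [h0]
    have h3 : ∫ x, (r x).toReal ^ 2 ∂μ ≤ ∫ x, C * (r x).toReal ∂μ := by
      refine integral_mono_ae ?_ ?_ ?_
      · have := hfL.integrable_norm_pow (two_ne_zero)
        refine this.congr ?_
        filter_upwards with x
        simp [hf]
      · exact (Measure.integrable_toReal_rnDeriv).const_mul C
      · filter_upwards [hreal] with x hx
        nlinarith [hx.1, hx.2]
    refine h3.trans ?_
    rw [integral_const_mul, Measure.integral_toReal_rnDeriv hac]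
    rfl

/-- In a spectral measure which is the average of translates of one linear image, with one
open piece covered only once, all translations are distinct. -/
theorem injective_of_spectral {d : ℕ} {I : Type*} [Fintype I] [DecidableEq I]
    (μ : Measure (Fin d → ℝ)) [IsProbabilityMeasure μ]
    (A : (Fin d → ℝ) →ₗ[ℝ] (Fin d → ℝ)) (t : I → Fin d → ℝ)
    (hμ : μ = ∑ i, ((Fintype.card I : ℝ≥0∞)⁻¹) • μ.map (fun x => A x + t i))
    (hspec : ∃ (Λ : Set (Fin d → ℝ)) (e : Λ → MeasureTheory.Lp ℂ 2 μ),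
      (∀ l : Λ, (e l : (Fin d → ℝ) → ℂ) =ᵐ[μ]
        fun x => Complex.exp (2 * Real.pi * Complex.I
          * ((∑ i, (l : Fin d → ℝ) i * x i : ℝ) : ℂ))) ∧
      Orthonormal ℂ e ∧
      (Submodule.span ℂ (Set.range e)).topologicalClosure = ⊤)
    (T : Set (Fin d → ℝ)) (hT : μ Tᶜ = 0) (i0 : I) (O : Set (Fin d → ℝ))
    (hO : MeasurableSet O) (hO0 : μ O ≠ 0) (hdis : ∀ i ≠ i0, ∀ x ∈ T, A x + t i ∉ O) :
    Function.Injective t := by
  classical
  obtain ⟨Λ, e, hee, heo, het⟩ := hspec
  intro i1 i2 h12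
  by_contra hne
  set c : ℝ≥0∞ := (Fintype.card I : ℝ≥0∞) with hc
  have hcard : (0 : ℝ) < Fintype.card I := by
    exact_mod_cast Fintype.card_pos_iff.2 ⟨i0⟩
  have hc0 : c ≠ 0 := by
    simp only [hc, ne_eq, Nat.cast_eq_zero]
    exact (Fintype.card_pos_iff.2 ⟨i0⟩).ne'
  have hct : c ≠ ⊤ := ENNReal.natCast_ne_top _
  have hAm : ∀ i, Measurable (fun x => A x + t i) := fun i =>
    ((LinearMap.continuous_of_finiteDimensional A).measurable).add_const _
  -- pointwise formula
  have hμs : ∀ s, MeasurableSet s → c * μ s = ∑ i, μ ((fun x => A x + t i) ⁻¹' s) := by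
    intro s hs
    conv_lhs => rw [hμ]
    rw [Measure.finsetSum_apply, Finset.mul_sum]
    refine Finset.sum_congr rfl fun i _ => ?_
    rw [Measure.smul_apply, Measure.map_apply (hAm i) hs, smul_eq_mul, ← mul_assoc,
      ENNReal.mul_inv_cancel hc0 hct, one_mul]
  set Q : Set (Fin d → ℝ) := (fun x => A x + t i0) ⁻¹' O with hQ
  have hQm : MeasurableSet Q := hAm i0 hO
  have hzero : ∀ i ≠ i0, μ ((fun x => A x + t i) ⁻¹' O) = 0 := by
    intro i hi
    refine measure_mono_null ?_ hT
    intro x hx hxT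
    exact hdis i hi x hxT hx
  -- for subsets of `O`
  have hsub : ∀ s, MeasurableSet s → c * μ (s ∩ O) = μ ((fun x => A x + t i0) ⁻¹' (s ∩ O)) := by
    intro s hs
    rw [hμs _ (hs.inter hO), Finset.sum_eq_single i0]
    · intro i _ hi
      refine measure_mono_null ?_ (hzero i hi)
      exact Set.preimage_mono Set.inter_subset_right
    · simp
  set σ : I → Measure (Fin d → ℝ) := fun i => (μ.restrict Q).map (fun x => A x + t i) with hσ
  have hσs : ∀ i s, MeasurableSet s → σ i s = μ ((fun x => A x + t i) ⁻¹' s ∩ Q) := by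
    intro i s hs
    simp only [hσ]
    rw [Measure.map_apply (hAm i) hs, Measure.restrict_apply (hAm i hs)]
  have hσ0 : ∀ s, MeasurableSet s → σ i0 s = c * μ (s ∩ O) := by
    intro s hs
    rw [hσs i0 s hs, hsub s hs, Set.preimage_inter]
  -- bounds
  have hb0 : ∀ s, MeasurableSet s → σ i0 s ≤ ENNReal.ofReal (Fintype.card I) * μ s := by
    intro s hs
    rw [hσ0 s hs, ENNReal.ofReal_natCast]
    gcongr
    exact Set.inter_subset_left
  have hb1 : ∀ s, MeasurableSet s →
      σ i1 s ≤ ENNReal.ofReal ((Fintype.card I : ℝ) / 2) * μ s := by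
    intro s hs
    have h1 : (2 : ℝ≥0∞) * μ ((fun x => A x + t i1) ⁻¹' s) ≤ c * μ s := by
      rw [hμs s hs, two_mul]
      nth_rewrite 2 [h12]
      rw [← Finset.sum_pair (f := fun i => μ ((fun x => A x + t i) ⁻¹' s)) hne]
      exact Finset.sum_le_sum_of_subset (Finset.subset_univ _)
    have h2 : σ i1 s ≤ μ ((fun x => A x + t i1) ⁻¹' s) := by
      rw [hσs i1 s hs]
      exact measure_mono Set.inter_subset_left
    have h3 : ENNReal.ofReal ((Fintype.card I : ℝ) / 2) = c / 2 := by
      rw [ENNReal.ofReal_div_of_pos two_pos, ENNReal.ofReal_natCast]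
      simp [hc]
    rw [h3, ENNReal.div_eq_inv_mul, mul_assoc]
    calc σ i1 s ≤ μ ((fun x => A x + t i1) ⁻¹' s) := h2
      _ = 2⁻¹ * (2 * μ ((fun x => A x + t i1) ⁻¹' s)) := by
          rw [← mul_assoc, ENNReal.inv_mul_cancel two_ne_zero ENNReal.ofNat_ne_top, one_mul]
      _ ≤ 2⁻¹ * (c * μ s) := by gcongr
  obtain ⟨F0, hF0, -⟩ := exists_density μ (σ i0) _ hcard.le hb0
  obtain ⟨F1, hF1, hF1n⟩ := exists_density μ (σ i1) _ (by positivity) hb1
  -- the moduli of the coefficients agree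
  have hnorm : ‖F0‖ = ‖F1‖ := by
    refine norm_eq_of_inner e heo het F0 F1 fun l => ?_
    have hgen : ∀ i, ∫ x, conj (Complex.exp (2 * Real.pi * Complex.I
          * ((∑ j, (l : Fin d → ℝ) j * x j : ℝ) : ℂ))) ∂(σ i)
        = conj (Complex.exp (2 * Real.pi * Complex.I
          * ((∑ j, (l : Fin d → ℝ) j * t i j : ℝ) : ℂ))) *
          ∫ x, conj (Complex.exp (2 * Real.pi * Complex.I
          * ((∑ j, (l : Fin d → ℝ) j * A x j : ℝ) : ℂ))) ∂(μ.restrict Q) := by
      intro i
      simp only [hσ]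
      rw [integral_map (hAm i).aemeasurable]
      · rw [← integral_const_mul]
        refine integral_congr_ae ?_
        filter_upwards with x
        rw [← map_mul, ← Complex.exp_add]
        congr 2
        rw [← mul_add, ← Complex.ofReal_add, ← Finset.sum_add_distrib]
        congr 3
        funext j
        simp only [Pi.add_apply]
        ring
      · refine Continuous.aestronglyMeasurable ?_
        fun_prop
    rw [hF0 _ _ (hee l), hF1 _ _ (hee l), hgen, hgen, norm_mul, norm_mul]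
    congr 1
    have hone : ∀ v : Fin d → ℝ, ‖conj (Complex.exp (2 * Real.pi * Complex.I
          * ((∑ j, (l : Fin d → ℝ) j * v j : ℝ) : ℂ)))‖ = 1 := by
      intro v
      rw [Complex.norm_conj, Complex.norm_exp]
      simp
    rw [hone, hone]
  -- lower bound for `F0`
  have hOfin : μ O ≠ ⊤ := measure_ne_top _ _
  have hOr : 0 < (μ O).toReal := ENNReal.toReal_pos hO0 hOfin
  have hlow : (Fintype.card I : ℝ) ^ 2 * (μ O).toReal ≤ ‖F0‖ ^ 2 := by
    have hg := hF0 (O.indicator fun _ => (1 : ℂ)) (indicatorConstLp 2 hO hOfin (1 : ℂ))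
      indicatorConstLp_coeFn
    have h1 : ∫ x, conj ((O.indicator fun _ => (1 : ℂ)) x) ∂(σ i0)
        = ((Fintype.card I : ℝ) * (μ O).toReal : ℝ) := by
      have h2 : (fun x => conj ((O.indicator fun _ => (1 : ℂ)) x)) =
          O.indicator fun _ => (1 : ℂ) := by
        funext x
        by_cases hx : x ∈ O <;> simp [hx]
      rw [h2, integral_indicator_const _ hO, Measure.real, hσ0 O hO, Set.inter_self,
        ENNReal.toReal_mul]
      simp [hc]
    rw [h1] at hg
    have hcs := norm_inner_le_norm (𝕜 := ℂ) (indicatorConstLp 2 hO hOfin (1 : ℂ)) F0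
    rw [hg, norm_indicatorConstLp (by norm_num) (by norm_num)] at hcs
    simp only [norm_one, one_mul, Complex.norm_real, Real.norm_eq_abs] at hcs
    rw [abs_of_pos (by positivity)] at hcs
    have h5 : ((μ.real O) ^ (1 / ENNReal.toReal 2)) ^ 2 = (μ O).toReal := by
      rw [← Real.rpow_natCast, ← Real.rpow_mul measureReal_nonneg]
      norm_num [Measure.real]
    have h6 : ((Fintype.card I : ℝ) * (μ O).toReal) ^ 2 ≤ (μ O).toReal * ‖F0‖ ^ 2 := by
      calc ((Fintype.card I : ℝ) * (μ O).toReal) ^ 2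
          ≤ (μ.real O ^ (1 / ENNReal.toReal 2) * ‖F0‖) ^ 2 := by gcongr
        _ = (μ O).toReal * ‖F0‖ ^ 2 := by rw [mul_pow, h5]
    have h7 : (μ O).toReal * ((Fintype.card I : ℝ) ^ 2 * (μ O).toReal)
        ≤ (μ O).toReal * ‖F0‖ ^ 2 := by
      calc _ = ((Fintype.card I : ℝ) * (μ O).toReal) ^ 2 := by ring
        _ ≤ _ := h6
    exact le_of_mul_le_mul_left h7 hOr
  -- upper bound for `F1`
  have hQr : (σ i1 Set.univ).toReal = (Fintype.card I : ℝ) * (μ O).toReal := by
    have h1 : σ i1 Set.univ = μ Q := by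
      rw [hσs i1 _ MeasurableSet.univ]
      simp
    have h2 : σ i0 Set.univ = μ Q := by
      rw [hσs i0 _ MeasurableSet.univ]
      simp
    rw [h1, ← h2, hσ0 _ MeasurableSet.univ, Set.univ_inter, ENNReal.toReal_mul]
    simp [hc]
  rw [hQr] at hF1n
  rw [hnorm] at hlow
  have : (Fintype.card I : ℝ) ^ 2 * (μ O).toReal ≤ (Fintype.card I : ℝ) ^ 2 * (μ O).toReal / 2 := by
    calc _ ≤ ‖F1‖ ^ 2 := hlow
      _ ≤ _ := hF1n
      _ = _ := by ring
  have hpos : 0 < (Fintype.card I : ℝ) ^ 2 * (μ O).toReal := by positivity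
  linarith

end Pool.Agent.N835.Spec
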