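import Pool.Agent.N835.Spec.Parseval
import Pool.Agent.N835.Spec.Contr

/-!
# Iterating an affine IFS with a common linear part
-/

set_option autoImplicit false
set_option linter.unusedSectionVars false
open MeasureTheory
open scoped ENNReal

namespace Pool.Agent.N835.Spec

variable {d : ℕ} {J : Type*} [Fintype J] [DecidableEq J]

/-- Translation part of the composition `φ_{w 0} ∘ ⋯ ∘ φ_{w (n-1)}`, `φ_j x = M (x + β j)`. -/
noncomputable def tw (M : (Fin d → ℝ) →ₗ[ℝ] (Fin d → ℝ)) (β : J → Fin d → ℝ) (n : ℕ)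
    (w : Fin n → J) : Fin d → ℝ :=
  ∑ i : Fin n, (M ^ ((i : ℕ) + 1)) (β (w i))

/-- The composition of the maps of a word. -/
noncomputable def psi (M : (Fin d → ℝ) →ₗ[ℝ] (Fin d → ℝ)) (β : J → Fin d → ℝ) (n : ℕ)
    (w : Fin n → J) (x : Fin d → ℝ) : Fin d → ℝ :=
  (M ^ n) x + tw M β n w

variable (M : (Fin d → ℝ) →ₗ[ℝ] (Fin d → ℝ)) (β : J → Fin d → ℝ)

theorem tw_cons (n : ℕ) (j : J) (w : Fin n → J) :
    tw M β (n + 1) (Fin.cons j w : Fin (n + 1) → J) = M (tw M β n w + β j) := by
  unfold tw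
  rw [Fin.sum_univ_succ, map_add, map_sum, add_comm]
  congr 1
  · refine Finset.sum_congr rfl fun i _ => ?_
    simp only [Fin.cons_succ, Fin.val_succ]
    rw [pow_succ' M ((i : ℕ) + 1)]
    rfl

theorem tw_snoc (n : ℕ) (j : J) (w : Fin n → J) :
    tw M β (n + 1) (Fin.snoc w j : Fin (n + 1) → J) = (M ^ n) (M (β j)) + tw M β n w := by
  unfold tw
  rw [Fin.sum_univ_castSucc, add_comm]
  congr 1
  · simp only [Fin.snoc_last, Fin.val_last]
    rw [pow_succ]
    rfl
  · refine Finset.sum_congr rfl fun i _ => ?_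
    simp

theorem psi_cons (n : ℕ) (j : J) (w : Fin n → J) (x : Fin d → ℝ) :
    psi M β (n + 1) (Fin.cons j w : Fin (n + 1) → J) x = M (psi M β n w x + β j) := by
  unfold psi
  rw [tw_cons, pow_succ', Module.End.mul_apply]
  simp only [map_add]
  abel

theorem psi_snoc (n : ℕ) (j : J) (w : Fin n → J) (x : Fin d → ℝ) :
    psi M β (n + 1) (Fin.snoc w j : Fin (n + 1) → J) x = psi M β n w (M (x + β j)) := by
  unfold psi
  rw [tw_snoc, pow_succ, Module.End.mul_apply]
  simp only [map_add]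
  abel

theorem psi_continuous (n : ℕ) (w : Fin n → J) : Continuous (psi M β n w) := by
  unfold psi
  exact (LinearMap.continuous_of_finiteDimensional _).add continuous_const

theorem sum_cons {γ : Type*} [AddCommMonoid γ] (n : ℕ) (f : (Fin (n + 1) → J) → γ) :
    ∑ w, f w = ∑ j : J, ∑ w : Fin n → J, f (Fin.cons j w) := by
  rw [← Fintype.sum_prod_type' (f := fun (j : J) (w : Fin n → J) => f (Fin.cons j w))]
  exact (Fintype.sum_equiv (Fin.consEquiv fun _ => J) _ _ fun p => rfl).symm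

theorem sum_snoc {γ : Type*} [AddCommMonoid γ] (n : ℕ) (f : (Fin (n + 1) → J) → γ) :
    ∑ w, f w = ∑ w : Fin n → J, ∑ j : J, f (Fin.snoc w j) := by
  rw [Finset.sum_comm,
    ← Fintype.sum_prod_type' (f := fun (j : J) (w : Fin n → J) => f (Fin.snoc w j))]
  exact (Fintype.sum_equiv (Fin.snocEquiv fun _ => J) _ _ fun p => rfl).symm

section measure

variable (μ : Measure (Fin d → ℝ)) [IsProbabilityMeasure μ]
  (hinv : ∀ s, MeasurableSet s →
    (Fintype.card J : ℝ≥0∞) * μ s = ∑ j, μ ((fun x => M (x + β j)) ⁻¹' s))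

include hinv

theorem inv_iter (n : ℕ) : ∀ s, MeasurableSet s →
    (Fintype.card J : ℝ≥0∞) ^ n * μ s = ∑ w : Fin n → J, μ (psi M β n w ⁻¹' s) := by
  induction n with
  | zero =>
    intro s _
    have h1 : ∀ w : Fin 0 → J, psi M β 0 w = id := by
      intro w
      funext x
      simp [psi, tw]
    simp [h1]
  | succ n ih =>
    intro s hs
    rw [sum_cons, pow_succ, mul_assoc, hinv s hs, Finset.mul_sum]
    refine Finset.sum_congr rfl fun j _ => ?_
    have hm : Measurable (fun x : Fin d → ℝ => M (x + β j)) :=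
      (LinearMap.continuous_of_finiteDimensional M).measurable.comp (measurable_id.add_const _)
    rw [ih _ (hm hs)]
    refine Finset.sum_congr rfl fun w _ => ?_
    congr 1
    ext x
    simp only [Set.mem_preimage, psi_cons]

theorem le_measure_of_word (n : ℕ) (w : Fin n → J) (s : Set (Fin d → ℝ)) (hs : MeasurableSet s) :
    μ (psi M β n w ⁻¹' s) ≤ (Fintype.card J : ℝ≥0∞) ^ n * μ s := by
  rw [inv_iter M β μ hinv n s hs]
  exact Finset.single_le_sum (f := fun w => μ (psi M β n w ⁻¹' s)) (fun _ _ => bot_le)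
    (Finset.mem_univ w)

end measure

section attractor

variable (T : Set (Fin d → ℝ)) (hT : T = ⋃ j, (fun x => M (x + β j)) '' T)

include hT

theorem T_iter (n : ℕ) : T = ⋃ w : Fin n → J, psi M β n w '' T := by
  induction n with
  | zero =>
    have h1 : ∀ w : Fin 0 → J, psi M β 0 w = id := by
      intro w
      funext x
      simp [psi, tw]
    simp only [h1, Set.image_id]
    exact (Set.iUnion_const T).symm
  | succ n ih =>
    apply Set.Subset.antisymm
    · intro x hx
      rw [hT] at hx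
      obtain ⟨j, y, hy, hyx⟩ := Set.mem_iUnion.1 hx
      rw [ih] at hy
      obtain ⟨w, z, hz, hzy⟩ := Set.mem_iUnion.1 hy
      refine Set.mem_iUnion.2 ⟨Fin.cons j w, z, hz, ?_⟩
      rw [psi_cons, hzy]
      exact hyx
    · intro x hx
      obtain ⟨w, z, hz, hzx⟩ := Set.mem_iUnion.1 hx
      obtain ⟨j, w', rfl⟩ : ∃ j w', w = Fin.cons j w' := ⟨w 0, Fin.tail w, (Fin.cons_self_tail w).symm⟩
      rw [psi_cons] at hzx
      rw [hT]
      refine Set.mem_iUnion.2 ⟨j, psi M β n w' z, ?_, hzx⟩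
      rw [ih]
      exact Set.mem_iUnion.2 ⟨w', z, hz, rfl⟩

theorem psi_mem (n : ℕ) (w : Fin n → J) (x : Fin d → ℝ) (hx : x ∈ T) : psi M β n w x ∈ T := by
  rw [T_iter M β T hT n]
  exact Set.mem_iUnion.2 ⟨w, x, hx, rfl⟩

end attractor

section both

variable (μ : Measure (Fin d → ℝ)) [IsProbabilityMeasure μ]
  (hinv : ∀ s, MeasurableSet s →
    (Fintype.card J : ℝ≥0∞) * μ s = ∑ j, μ ((fun x => M (x + β j)) ⁻¹' s))
  (T : Set (Fin d → ℝ)) (hT : T = ⋃ j, (fun x => M (x + β j)) '' T)
  (hTc : IsCompact T) (hTn : T.Nonempty)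
  (hcontr : ∀ ε : ℝ, 0 < ε → ∃ n0 : ℕ, ∀ n ≥ n0, ∀ x : Fin d → ℝ, ‖(M ^ n) x‖ ≤ ε * ‖x‖)

omit [IsProbabilityMeasure μ] in
theorem psi_sub (n : ℕ) (w : Fin n → J) (x y : Fin d → ℝ) :
    psi M β n w x - psi M β n w y = (M ^ n) (x - y) := by
  unfold psi
  rw [map_sub]
  abel

include hinv hT hTc hTn hcontr

/-- The invariant measure lives on the attractor. -/
theorem measure_compl_T : μ Tᶜ = 0 := by
  obtain ⟨t0, ht0⟩ := hTn
  have hcard : (Fintype.card J : ℝ≥0∞) ≠ 0 := by
    have : T ≠ ∅ := fun h => by rw [h] at ht0; exact ht0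
    intro h0
    apply this
    rw [hT]
    have : IsEmpty J := by
      rw [← Fintype.card_eq_zero_iff]
      exact_mod_cast h0
    simp
  have hcardt : (Fintype.card J : ℝ≥0∞) ≠ ⊤ := ENNReal.natCast_ne_top _
  -- the far region has measure zero
  have hfar : ∀ ε : ℝ, 0 < ε → μ {x | ε ≤ Metric.infDist x T} = 0 := by
    intro ε hε
    have hFm : MeasurableSet {x : Fin d → ℝ | ε ≤ Metric.infDist x T} :=
      (isClosed_le continuous_const (Metric.continuous_infDist_pt T)).measurableSet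
    have hle : ∀ r : ℕ, μ {x | ε ≤ Metric.infDist x T} ≤ μ (Metric.closedBall t0 r)ᶜ := by
      intro r
      obtain ⟨n, hn⟩ := hcontr (ε / (2 * (r + 1))) (by positivity)
      have hn := hn n le_rfl
      have h1 : (Fintype.card J : ℝ≥0∞) ^ n * μ {x | ε ≤ Metric.infDist x T}
          ≤ (Fintype.card J : ℝ≥0∞) ^ n * μ (Metric.closedBall t0 r)ᶜ := by
        rw [inv_iter M β μ hinv n _ hFm]
        have h2 : (Fintype.card J : ℝ≥0∞) ^ n * μ (Metric.closedBall t0 r)ᶜ
            = ∑ _w : Fin n → J, μ (Metric.closedBall t0 r)ᶜ := by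
          simp
        rw [h2]
        refine Finset.sum_le_sum fun w _ => measure_mono ?_
        intro x hx hxr
        rw [Set.mem_preimage, Set.mem_ofPred_eq] at hx
        have h3 : Metric.infDist (psi M β n w x) T ≤ dist (psi M β n w x) (psi M β n w t0) :=
          Metric.infDist_le_dist_of_mem (psi_mem M β T hT n w t0 ht0)
        rw [dist_eq_norm, psi_sub] at h3
        have h4 : ‖x - t0‖ ≤ r := by
          rw [← dist_eq_norm]
          exact Metric.mem_closedBall.1 hxr
        have h5 := hn (x - t0)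
        have h6 : ε / (2 * (r + 1)) * ‖x - t0‖ ≤ ε / (2 * (r + 1)) * (r + 1) := by
          gcongr
          linarith
        have h7 : ε / (2 * ((r : ℝ) + 1)) * (r + 1) = ε / 2 := by
          field_simp
        linarith
      exact (ENNReal.mul_le_mul_iff_right (pow_ne_zero _ hcard) (ENNReal.pow_ne_top hcardt)).1 h1
    have hlim : Filter.Tendsto (fun r : ℕ => μ (Metric.closedBall t0 (r : ℝ))ᶜ) Filter.atTop
        (nhds 0) := by
      have h1 := tendsto_measure_iInter_atTop (μ := μ)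
        (s := fun r : ℕ => (Metric.closedBall t0 (r : ℝ))ᶜ)
        (fun r => (Metric.isClosed_closedBall.measurableSet.compl).nullMeasurableSet)
        (fun a b hab => Set.compl_subset_compl.2 (Metric.closedBall_subset_closedBall
          (by exact_mod_cast hab)))
        ⟨0, measure_ne_top _ _⟩
      rw [← Set.compl_iUnion, Metric.iUnion_closedBall_nat, Set.compl_univ, measure_empty] at h1
      exact h1
    exact le_antisymm (ge_of_tendsto' hlim hle) bot_le
  have hunion : Tᶜ ⊆ ⋃ k : ℕ, {x | 1 / ((k : ℝ) + 1) ≤ Metric.infDist x T} := by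
    intro x hx
    have hpos : 0 < Metric.infDist x T :=
      (hTc.isClosed.notMem_iff_infDist_pos ⟨t0, ht0⟩).1 hx
    obtain ⟨k, hk⟩ := exists_nat_one_div_lt hpos
    exact Set.mem_iUnion.2 ⟨k, hk.le⟩
  refine measure_mono_null hunion (measure_iUnion_null fun k => hfar _ (by positivity))

/-- Every open set meeting the attractor has positive measure. -/
theorem measure_open_ne_zero (O : Set (Fin d → ℝ)) (hO : IsOpen O) (x : Fin d → ℝ)
    (hxO : x ∈ O) (hxT : x ∈ T) : μ O ≠ 0 := by
  intro h0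
  have hTcompl := measure_compl_T M β μ hinv T hT hTc hTn hcontr
  obtain ⟨ε, hε, hball⟩ := Metric.isOpen_iff.1 hO x hxO
  obtain ⟨D, hD⟩ := hTc.isBounded.exists_norm_le
  have hD0 : 0 ≤ D := (norm_nonneg x).trans (hD x hxT)
  obtain ⟨n, hn⟩ := hcontr (ε / (2 * (2 * D + 1))) (by positivity)
  have hn := hn n le_rfl
  have hx' := hxT
  rw [T_iter M β T hT n] at hx'
  obtain ⟨w, y, hy, hyx⟩ := Set.mem_iUnion.1 hx'
  have hsub : T ⊆ psi M β n w ⁻¹' O := by
    intro z hz
    apply hball
    rw [Metric.mem_ball, ← hyx, dist_eq_norm, psi_sub]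
    have h1 : ‖z - y‖ ≤ 2 * D := by
      calc ‖z - y‖ ≤ ‖z‖ + ‖y‖ := norm_sub_le _ _
        _ ≤ 2 * D := by linarith [hD z hz, hD y hy]
    have h2 := hn (z - y)
    have h3 : ε / (2 * (2 * D + 1)) * ‖z - y‖ ≤ ε / (2 * (2 * D + 1)) * (2 * D + 1) := by
      gcongr
      linarith
    have h4 : ε / (2 * (2 * D + 1)) * (2 * D + 1) = ε / 2 := by
      field_simp
    linarith
  have h1 := le_measure_of_word M β μ hinv n w O hO.measurableSet
  rw [h0, mul_zero] at h1
  have h2 : μ T = 1 := by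
    have := prob_compl_eq_zero_iff hTc.isClosed.measurableSet (μ := μ)
    exact this.1 hTcompl
  have h3 : μ T ≤ 0 := (measure_mono hsub).trans h1
  rw [h2] at h3
  simp at h3

end both

end Pool.Agent.N835.Spec
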